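import Pool.Agent.X321.LG.Mat
import Pool.Agent.X321.GR.Num
set_option autoImplicit false

/-!
The maximum principle for weighted Laplacians with few small weights, and determinants near `1`.
-/

namespace Pool.Agent.X321.ST

open Pool.Agent.X321.LG (lap lmat sum_lap lap_symm)

open Pool.Agent.X321.GR (Contr prod_le_abs_det det_of_row_sum card_near)

variable {g : ℕ}

/-- **The maximum principle.** -/
theorem bound {w : Fin (g + 1) → Fin (g + 1) → ℝ} (hw : ∀ i j, w i j = w j i)
    (hw0 : ∀ i j, i ≠ j → 0 ≤ w i j) {m c M : ℝ} (hc0 : 0 ≤ c) (n : ℕ)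
    (hcard : ∀ i, ((Finset.univ.erase i).filter fun j => w i j < c).card ≤ n)
    (hM : M = m + c * (g + 1 - 2 * n)) (hM0 : 0 < M)
    {x y : Fin g → ℝ} {Y : ℝ} (hxy : (lmat w m).mulVec x = y) (hY : ∀ l, |y l| ≤ Y) (k : Fin g) :
    |x k| ≤ (g + 1) * Y / M := by
  set v : Fin (g + 1) → ℝ := Fin.cons (-∑ k, x k) x with hv
  have hv0 : ∑ i, v i = 0 := by
    rw [Fin.sum_univ_succ, hv]
    simp only [Fin.cons_zero, Fin.cons_succ]
    ring
  set u : Fin (g + 1) → ℝ := fun l => ∑ i, lap w m i l * v i with hu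
  have hus : ∀ l : Fin g, u l.succ = y l := by
    intro l
    have h1 := congrFun hxy l
    rw [Matrix.mulVec, dotProduct] at h1
    rw [← h1, hu]
    simp only
    rw [Fin.sum_univ_succ, hv]
    simp only [Fin.cons_zero, Fin.cons_succ]
    rw [mul_neg, Finset.mul_sum, ← Finset.sum_neg_distrib, ← Finset.sum_add_distrib]
    refine Finset.sum_congr rfl fun k _ => ?_
    unfold lmat
    rw [Matrix.of_apply]
    ring
  have husum : ∑ l, u l = 0 := by
    rw [hu]
    simp only
    rw [Finset.sum_comm]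
    have h1 : ∀ i, ∑ l, lap w m i l * v i = m * v i := fun i => by
      rw [← Finset.sum_mul, sum_lap]
    rw [Finset.sum_congr rfl fun i _ => h1 i, ← Finset.mul_sum, hv0, mul_zero]
  have hg : (1 : ℝ) ≤ g := by
    have := k.isLt
    exact_mod_cast (by omega : 1 ≤ g)
  have hY0 : 0 ≤ Y := (abs_nonneg _).trans (hY k)
  have hu0 : |u 0| ≤ g * Y := by
    rw [Fin.sum_univ_succ] at husum
    have h1 : u 0 = -∑ l : Fin g, u l.succ := by linarith
    rw [h1, abs_neg]
    refine (Finset.abs_sum_le_sum_abs _ _).trans ?_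
    have h2 : ∑ l : Fin g, |u l.succ| ≤ ∑ _l : Fin g, Y :=
      Finset.sum_le_sum fun l _ => by
        rw [hus l]
        exact hY l
    refine h2.trans (le_of_eq ?_)
    rw [Finset.sum_const, Finset.card_univ, Fintype.card_fin, nsmul_eq_mul]
  have hupq : ∀ p q, u p - u q ≤ (g + 1) * Y := by
    intro p q
    have h0 := abs_le.1 hu0
    have h5 : Y ≤ g * Y := by nlinarith
    refine Fin.cases ?_ (fun p => ?_) p <;> refine Fin.cases ?_ (fun q => ?_) q
    · rw [sub_self]
      positivity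
    · have h2 := abs_le.1 (hY q)
      rw [hus]
      linarith
    · have h2 := abs_le.1 (hY p)
      rw [hus]
      linarith
    · have h1 := abs_le.1 (hY p)
      have h2 := abs_le.1 (hY q)
      rw [hus, hus]
      linarith
  have hform : ∀ l, u l = m * v l + ∑ i ∈ Finset.univ.erase l, w l i * (v l - v i) := by
    intro l
    rw [hu]
    simp only
    rw [← Finset.add_sum_erase Finset.univ _ (Finset.mem_univ l)]
    have h1 : ∀ i ∈ Finset.univ.erase l, w l i * (v l - v i) =
        w l i * v l - w l i * v i := fun i _ => by ring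
    have h2 : ∀ i ∈ Finset.univ.erase l, lap w m i l * v i = -(w l i * v i) := fun i hi => by
      unfold lap
      rw [if_neg (Finset.ne_of_mem_erase hi), hw i l]
      ring
    rw [Finset.sum_congr rfl h1, Finset.sum_congr rfl h2, Finset.sum_sub_distrib,
      Finset.sum_neg_distrib, ← Finset.sum_mul]
    unfold lap
    rw [if_pos rfl]
    ring
  have hsum : ∀ l, ∑ i ∈ Finset.univ.erase l, (v l - v i) = (g + 1) * v l := by
    intro l
    have h1 : ∑ i, (v l - v i) = (g + 1) * v l := by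
      rw [Finset.sum_sub_distrib, hv0, Finset.sum_const, Finset.card_univ, Fintype.card_fin,
        nsmul_eq_mul]
      push_cast
      ring
    rw [← Finset.add_sum_erase Finset.univ _ (Finset.mem_univ l), sub_self, zero_add] at h1
    exact h1
  obtain ⟨p, -, hp⟩ := Finset.exists_max_image Finset.univ v ⟨0, Finset.mem_univ _⟩
  obtain ⟨q, -, hq⟩ := Finset.exists_min_image Finset.univ v ⟨0, Finset.mem_univ _⟩
  have hspread : 0 ≤ v p - v q := sub_nonneg.2 (hp q (Finset.mem_univ q))
  have hcard' : ∀ i, ((((Finset.univ.erase i).filter fun j => w i j < c).card : ℕ) : ℝ) ≤ n :=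
    fun i => by exact_mod_cast hcard i
  have hup : m * v p + (c * ((g + 1) * v p) - n * (c * (v p - v q))) ≤ u p := by
    rw [hform]
    refine add_le_add le_rfl ?_
    have h1 : ∀ i ∈ Finset.univ.erase p, c * (v p - v i) -
        (if w p i < c then c * (v p - v q) else 0) ≤ w p i * (v p - v i) := by
      intro i hi
      have h2 := hp i (Finset.mem_univ i)
      have h3 := hq i (Finset.mem_univ i)
      have h4 := hw0 p i (Finset.ne_of_mem_erase hi).symm
      split_ifs with h
      · have h5 : 0 ≤ w p i * (v p - v i) := mul_nonneg h4 (by linarith)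
        have h6 : 0 ≤ c * (v i - v q) := mul_nonneg hc0 (by linarith)
        nlinarith
      · have h5 : 0 ≤ (w p i - c) * (v p - v i) := mul_nonneg (by linarith) (by linarith)
        nlinarith
    have h2 := Finset.sum_le_sum h1
    rw [Finset.sum_sub_distrib, ← Finset.mul_sum, hsum, ← Finset.sum_filter, Finset.sum_const,
      nsmul_eq_mul] at h2
    have h3 := mul_le_mul_of_nonneg_right (hcard' p) (mul_nonneg hc0 hspread)
    linarith
  have huq : u q ≤ m * v q + (c * ((g + 1) * v q) + n * (c * (v p - v q))) := by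
    rw [hform]
    refine add_le_add le_rfl ?_
    have h1 : ∀ i ∈ Finset.univ.erase q, w q i * (v q - v i) ≤ c * (v q - v i) +
        (if w q i < c then c * (v p - v q) else 0) := by
      intro i hi
      have h2 := hp i (Finset.mem_univ i)
      have h3 := hq i (Finset.mem_univ i)
      have h4 := hw0 q i (Finset.ne_of_mem_erase hi).symm
      split_ifs with h
      · have h5 : w q i * (v q - v i) ≤ 0 := mul_nonpos_of_nonneg_of_nonpos h4 (by linarith)
        have h6 : 0 ≤ c * (v p - v i) := mul_nonneg hc0 (by linarith)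
        nlinarith
      · have h5 : (w q i - c) * (v q - v i) ≤ 0 :=
          mul_nonpos_of_nonneg_of_nonpos (by linarith) (by linarith)
        nlinarith
    have h2 := Finset.sum_le_sum h1
    rw [Finset.sum_add_distrib, ← Finset.mul_sum, hsum, ← Finset.sum_filter, Finset.sum_const,
      nsmul_eq_mul] at h2
    have h3 := mul_le_mul_of_nonneg_right (hcard' q) (mul_nonneg hc0 hspread)
    linarith
  have hfin : M * (v p - v q) ≤ (g + 1) * Y := by
    have h1 := hupq p q
    have h2 : M * (v p - v q) = (m * v p + (c * ((g + 1) * v p) - n * (c * (v p - v q)))) -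
        (m * v q + (c * ((g + 1) * v q) + n * (c * (v p - v q)))) := by
      rw [hM]
      ring
    linarith
  have h3 : v p - v q ≤ (g + 1) * Y / M := by
    rw [le_div_iff₀ hM0]
    linarith
  have hp0 : 0 ≤ v p := by
    by_contra hcon
    have h1 : ∑ i, v i < ∑ _i : Fin (g + 1), (0 : ℝ) :=
      Finset.sum_lt_sum_of_nonempty ⟨0, Finset.mem_univ _⟩ fun i _ => by
        have := hp i (Finset.mem_univ i)
        linarith
    rw [hv0, Finset.sum_const_zero] at h1
    exact lt_irrefl _ h1
  have hq0 : v q ≤ 0 := by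
    by_contra hcon
    have h1 : ∑ _i : Fin (g + 1), (0 : ℝ) < ∑ i, v i :=
      Finset.sum_lt_sum_of_nonempty ⟨0, Finset.mem_univ _⟩ fun i _ => by
        have := hq i (Finset.mem_univ i)
        linarith
    rw [hv0, Finset.sum_const_zero] at h1
    exact lt_irrefl _ h1
  have h5 : v k.succ = x k := by rw [hv, Fin.cons_succ]
  have h6 := hp k.succ (Finset.mem_univ _)
  have h7 := hq k.succ (Finset.mem_univ _)
  rw [h5] at h6 h7
  rw [abs_le]
  constructor <;> linarith

/-- the logarithms of the distances of different integers -/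
noncomputable def wt (b : Fin (g + 1) → ℤ) (i j : Fin (g + 1)) : ℝ := Real.log |(b i : ℝ) - b j|

theorem wt_symm (b : Fin (g + 1) → ℤ) (i j : Fin (g + 1)) : wt b i j = wt b j i := by
  unfold wt
  rw [abs_sub_comm]

theorem wt_nonneg {b : Fin (g + 1) → ℤ} (hb : Function.Injective b) {i j : Fin (g + 1)}
    (hij : i ≠ j) : 0 ≤ wt b i j := by
  refine Real.log_nonneg ?_
  have h1 : (1 : ℤ) ≤ |b i - b j| := Int.one_le_abs (sub_ne_zero.2 (hb.ne hij))
  exact_mod_cast h1

theorem wt_card {b : Fin (g + 1) → ℤ} (hb : Function.Injective b) (i : Fin (g + 1)) :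
    ((Finset.univ.erase i).filter fun j => wt b i j < Real.log 2).card ≤ 2 := by
  refine (Finset.card_le_card fun j hj => ?_).trans (card_near hb 1 i)
  obtain ⟨h1, h2⟩ := Finset.mem_filter.1 hj
  refine Finset.mem_filter.2 ⟨h1, ?_⟩
  have h3 : (1 : ℤ) ≤ |b i - b j| :=
    Int.one_le_abs (sub_ne_zero.2 (hb.ne (Finset.ne_of_mem_erase h1).symm))
  have h4 : (1 : ℝ) ≤ |(b i : ℝ) - b j| := by exact_mod_cast h3
  have h5 : |(b i : ℝ) - b j| < 2 := (Real.log_lt_log_iff (by linarith) (by norm_num)).1 h2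
  have h6 : |b i - b j| < 2 := by exact_mod_cast h5
  push_cast
  omega

theorem wt_bound {b : Fin (g + 1) → ℤ} (hb : Function.Injective b) (hg : 12 ≤ g) {m : ℝ}
    (hm : 0 ≤ m) {x y : Fin g → ℝ} {Y : ℝ} (hxy : (lmat (wt b) m).mulVec x = y)
    (hY : ∀ l, |y l| ≤ Y) (k : Fin g) : |x k| ≤ 3 * Y := by
  have hg' : (12 : ℝ) ≤ g := by exact_mod_cast hg
  have hlog := Real.log_two_gt_d9
  have hM0 : 0 < m + Real.log 2 * (g + 1 - 2 * (2 : ℕ)) := by
    have : 0 < Real.log 2 * ((g : ℝ) + 1 - 2 * (2 : ℕ)) :=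
      mul_pos (by linarith) (by push_cast; linarith)
    linarith
  have h1 := bound (wt_symm b) (fun i j hij => wt_nonneg hb hij) (by linarith) 2 (wt_card hb) rfl
    hM0 hxy hY k
  refine h1.trans ?_
  have hY0 : 0 ≤ Y := (abs_nonneg _).trans (hY k)
  rw [div_le_iff₀ hM0]
  have h2 : (g + 1 : ℝ) ≤ 3 * (m + Real.log 2 * (g + 1 - 2 * (2 : ℕ))) := by
    push_cast
    nlinarith
  nlinarith

theorem det_wt_ne_zero {b : Fin (g + 1) → ℤ} (hb : Function.Injective b) (hg : 12 ≤ g) {m : ℝ}
    (hm : 0 ≤ m) : (lmat (wt b) m).det ≠ 0 := by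
  intro h
  obtain ⟨x, hx0, hx⟩ := Matrix.exists_mulVec_eq_zero_iff.2 h
  refine hx0 (funext fun k => ?_)
  have h1 := wt_bound hb hg hm hx (Y := 0) (fun l => by rw [Pi.zero_apply, abs_zero]) k
  rw [mul_zero] at h1
  exact abs_eq_zero.1 (le_antisymm h1 (abs_nonneg _))

section near

variable (P : Matrix (Fin g) (Fin g) ℝ) {a : ℝ}

theorem row_le (hP : ∀ i j, |P i j| ≤ a) (i : Fin g) : ∑ j, |P i j| ≤ g * a := by
  refine (Finset.sum_le_sum fun j _ => hP i j).trans (le_of_eq ?_)
  rw [Finset.sum_const, Finset.card_univ, Fintype.card_fin, nsmul_eq_mul]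

theorem abs_det_lower (ha : g * a < 1) (hP : ∀ i j, |P i j| ≤ a) :
    (1 - g * a) ^ g ≤ |(1 + P).det| := by
  have h1 := prod_le_abs_det (1 + P) (fun _ => 1 - g * a) (fun _ => by linarith) (fun i => by
    have h2 := row_le P hP i
    rw [← Finset.add_sum_erase Finset.univ _ (Finset.mem_univ i)] at h2
    have h3 : ∑ j ∈ Finset.univ.erase i, |(1 + P) i j| = ∑ j ∈ Finset.univ.erase i, |P i j| :=
      Finset.sum_congr rfl fun j hj => by
        rw [Matrix.add_apply, Matrix.one_apply_ne (Finset.ne_of_mem_erase hj).symm, zero_add]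
    rw [h3, Matrix.add_apply, Matrix.one_apply_eq]
    have h4 : 1 - |P i i| ≤ |1 + P i i| := by
      have := abs_sub_abs_le_abs_sub (1 : ℝ) (-P i i)
      rw [abs_one, abs_neg, sub_neg_eq_add] at this
      exact this
    linarith)
  rwa [Finset.prod_const, Finset.card_univ, Fintype.card_fin] at h1

theorem abs_det_upper (ha0 : 0 ≤ a) (hP : ∀ i j, |P i j| ≤ a) :
    |(1 + P).det| ≤ (1 + g * a) ^ g := by
  have hg0 : (0 : ℝ) ≤ g := Nat.cast_nonneg g
  set s : ℝ := 1 + g * a with hs
  have hs0 : 0 < s := by positivity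
  have hC : Contr (s⁻¹ • (1 + P)) := by
    intro x hx i
    rw [Matrix.smul_mulVec, Pi.smul_apply, smul_eq_mul, abs_mul, abs_of_pos (inv_pos.2 hs0),
      Matrix.add_mulVec, Matrix.one_mulVec, Pi.add_apply, inv_mul_le_iff₀ hs0, mul_one]
    refine (abs_add_le _ _).trans ?_
    rw [hs]
    refine add_le_add (hx i) ?_
    rw [Matrix.mulVec, dotProduct]
    refine (Finset.abs_sum_le_sum_abs _ _).trans ((Finset.sum_le_sum fun j _ => ?_).trans
      (row_le P hP i))
    rw [abs_mul]
    exact mul_le_of_le_one_right (abs_nonneg _) (hx j)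
  have h1 := hC.abs_det
  rw [Matrix.det_smul, Fintype.card_fin, abs_mul, abs_of_pos (pow_pos (inv_pos.2 hs0) g), inv_pow,
    inv_mul_le_iff₀ (pow_pos hs0 g), mul_one] at h1
  exact h1

theorem det_pos (ha : g * a < 1) (hP : ∀ i j, |P i j| ≤ a) : 0 < (1 + P).det := by
  have hne : ∀ s ∈ Set.Icc (0 : ℝ) 1, (1 + s • P).det ≠ 0 := by
    intro s hs h0
    have h1 := abs_det_lower (s • P) (a := a) ha (fun i j => by
      rw [Matrix.smul_apply, smul_eq_mul, abs_mul, abs_of_nonneg hs.1]
      exact (mul_le_of_le_one_left (abs_nonneg _) hs.2).trans (hP i j))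
    rw [h0, abs_zero] at h1
    have h2 : 0 < (1 - g * a) ^ g := pow_pos (by linarith) g
    linarith
  have hcont : ContinuousOn (fun s : ℝ => (1 + s • P).det) (Set.Icc 0 1) := by
    refine Continuous.continuousOn ?_
    exact (continuous_const.add (continuous_id.smul continuous_const)).matrix_det
  by_contra hcon
  rw [not_lt] at hcon
  have h1 := intermediate_value_Icc' (zero_le_one' ℝ) hcont
  have h2 : (0 : ℝ) ∈ Set.Icc ((1 + (1 : ℝ) • P).det) ((1 + (0 : ℝ) • P).det) := by
    rw [one_smul, zero_smul, add_zero, Matrix.det_one]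
    exact ⟨hcon, zero_le_one⟩
  obtain ⟨s, hs, h3⟩ := h1 h2
  exact hne s hs h3

/-- A determinant near `1`. -/
theorem det_near_one (ha0 : 0 ≤ a) (ha : g * (g * a) ≤ 1) (hga : g * a < 1)
    (hP : ∀ i j, |P i j| ≤ a) : |(1 + P).det - 1| ≤ 2 * (g * (g * a)) := by
  have hg0 : (0 : ℝ) ≤ g := Nat.cast_nonneg g
  have h1 := det_pos P hga hP
  have h2 := abs_det_lower P hga hP
  have h3 := abs_det_upper P ha0 hP
  rw [abs_of_pos h1] at h2 h3
  have hga0 : 0 ≤ g * a := by positivity
  have h4 : 1 + g * (-(g * a)) ≤ (1 + -(g * a)) ^ g := one_add_mul_le_pow (by linarith) g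
  have h5 : (1 + g * a) ^ g ≤ Real.exp (g * (g * a)) := by
    rw [Real.exp_nat_mul]
    refine pow_le_pow_left₀ (by positivity) ?_ g
    have := Real.add_one_le_exp (g * a)
    linarith
  have h6 : Real.exp (g * (g * a)) ≤ 1 + 2 * (g * (g * a)) := by
    have h7 := Real.abs_exp_sub_one_le (x := g * (g * a)) (by
      rw [abs_of_nonneg (by positivity)]
      exact ha)
    rw [abs_of_nonneg (by positivity : (0 : ℝ) ≤ g * (g * a))] at h7
    have := le_abs_self (Real.exp (g * (g * a)) - 1)
    linarith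
  have h8 : 0 ≤ g * (g * a) := by positivity
  rw [← sub_eq_add_neg] at h4
  rw [abs_le]
  constructor <;> linarith

end near

/-- **Determinants of matrices near the weighted Laplacian.** -/
theorem det_wt_near {b : Fin (g + 1) → ℤ} (hb : Function.Injective b) (hg : 12 ≤ g) {m δ : ℝ}
    (hm : 0 ≤ m) (hδ0 : 0 ≤ δ) (hδ : g * (g * (3 * δ)) ≤ 1) {R : Matrix (Fin g) (Fin g) ℝ}
    (hR : ∀ l k, |R l k - lmat (wt b) m l k| ≤ δ) :
    |R.det / (lmat (wt b) m).det - 1| ≤ 2 * (g * (g * (3 * δ))) := by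
  have hdet := det_wt_ne_zero hb hg hm
  have hu : IsUnit (lmat (wt b) m).det := isUnit_iff_ne_zero.2 hdet
  set P : Matrix (Fin g) (Fin g) ℝ := (lmat (wt b) m)⁻¹ * (R - lmat (wt b) m) with hP
  have hR1 : R = lmat (wt b) m * (1 + P) := by
    rw [hP, Matrix.mul_add, Matrix.mul_one, Matrix.mul_nonsing_inv_cancel_left _ _ hu]
    abel
  have h1 : R.det / (lmat (wt b) m).det = (1 + P).det := by
    conv_lhs => rw [hR1]
    rw [Matrix.det_mul, mul_div_cancel_left₀ _ hdet]
  rw [h1]
  have hg' : (12 : ℝ) ≤ g := by exact_mod_cast hg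
  refine det_near_one P (by linarith) hδ ?_ fun i j => ?_
  · have h3 : 0 ≤ g * (3 * δ) := by positivity
    nlinarith
  · have h2 : (lmat (wt b) m).mulVec (fun i => P i j) = fun i => (R - lmat (wt b) m) i j := by
      have h3 : lmat (wt b) m * P = R - lmat (wt b) m := by
        rw [hP, Matrix.mul_nonsing_inv_cancel_left _ _ hu]
      funext i
      have h4 := congrFun (congrFun h3 i) j
      rw [← h4]
      rfl
    exact wt_bound hb hg hm h2 (fun l => hR l j) i

/-- The determinant, for `m` and the Laplacian. -/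
theorem mul_det_lmat {w : Fin (g + 1) → Fin (g + 1) → ℝ} (m : ℝ) :
    m * (lmat w m).det = (Matrix.of (lap w m)).det := by
  rw [det_of_row_sum (lap w m) (sum_lap w m)]
  rfl

/-- The determinant for `m = 0`. -/
theorem det_lmat_zero {w : Fin (g + 1) → Fin (g + 1) → ℝ} (hw : ∀ i j, w i j = w j i) :
    (lmat w 0).det = (g + 1) * (Matrix.of fun l k : Fin g => lap w 0 l.succ k.succ).det := by
  set A : Matrix (Fin g) (Fin g) ℝ := Matrix.of fun l k : Fin g => lap w 0 l.succ k.succ with hA
  have h0 : ∀ l : Fin g, lap w 0 0 l.succ = -∑ k : Fin g, A l k := by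
    intro l
    have h1 := sum_lap w 0 l.succ
    rw [Fin.sum_univ_succ, lap_symm hw 0] at h1
    simp only [hA, Matrix.of_apply]
    linarith
  have h2 : lmat w 0 = A * (1 + Matrix.of fun _ _ => 1) := by
    ext l k
    rw [Matrix.mul_add, Matrix.mul_one, Matrix.add_apply, Matrix.mul_apply]
    unfold lmat
    rw [Matrix.of_apply, h0, lap_symm hw 0 k.succ l.succ]
    simp only [Matrix.of_apply, mul_one]
    rw [sub_neg_eq_add]
    congr 1
  have h3 : (1 + Matrix.of fun _ _ => 1 : Matrix (Fin g) (Fin g) ℝ).det = g + 1 := by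
    have h4 : (Matrix.of fun _ _ => 1 : Matrix (Fin g) (Fin g) ℝ) =
        Matrix.replicateCol Unit (fun _ => (1 : ℝ)) * Matrix.replicateRow Unit fun _ => (1 : ℝ) := by
      ext i j
      rw [Matrix.mul_apply]
      simp
    rw [h4, Matrix.det_one_add_replicateCol_mul_replicateRow]
    simp [dotProduct]
    ring
  rw [h2, Matrix.det_mul, h3, mul_comm]

/-- the numerical inequality for the radius -/
theorem num_aux (h : ℕ) (hh : 10 ≤ h) :
    6 * (2 * h + 1) ^ 2 * (2 * h + 2) * 2 ^ (2 * h + 4) ≤ h.factorial ^ 2 := by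
  induction h, hh using Nat.le_induction with
  | base => decide
  | succ h hh ih =>
    rw [Nat.factorial_succ, mul_pow]
    have h1 : 6 * (2 * (h + 1) + 1) ^ 2 * (2 * (h + 1) + 2) * 2 ^ (2 * (h + 1) + 4) ≤
        32 * (6 * (2 * h + 1) ^ 2 * (2 * h + 2) * 2 ^ (2 * h + 4)) := by
      have e1 : 2 * (h + 1) + 1 ≤ 2 * (2 * h + 1) := by omega
      have e2 : 2 * (h + 1) + 2 ≤ 2 * (2 * h + 2) := by omega
      have e3 : (2 : ℕ) ^ (2 * (h + 1) + 4) = 4 * 2 ^ (2 * h + 4) := by
        rw [show 2 * (h + 1) + 4 = (2 * h + 4) + 2 by ring, pow_add]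
        ring
      rw [e3]
      calc 6 * (2 * (h + 1) + 1) ^ 2 * (2 * (h + 1) + 2) * (4 * 2 ^ (2 * h + 4))
          ≤ 6 * (2 * (2 * h + 1)) ^ 2 * (2 * (2 * h + 2)) * (4 * 2 ^ (2 * h + 4)) := by
            gcongr
        _ = 32 * (6 * (2 * h + 1) ^ 2 * (2 * h + 2) * 2 ^ (2 * h + 4)) := by ring
    refine h1.trans (Nat.mul_le_mul ?_ ih)
    nlinarith

end Pool.Agent.X321.ST
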