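import Pool.Agent.Y94.UG.Main
set_option autoImplicit false

/-!
Products of distances to different integers, and small discs for polynomials with many special
integers.
-/

namespace Pool.Agent.X321.ST

open Polynomial

open Pool.Agent.TH826.UH

/-- The product of the absolute values of at least `2 h` different nonzero integers. -/
theorem fact_sq_le (h : ℕ) : ∀ D : Finset ℤ, (∀ d ∈ D, d ≠ 0) → 2 * h ≤ D.card →
    ((h.factorial : ℝ)) ^ 2 ≤ ∏ d ∈ D, |(d : ℝ)| := by
  induction h with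
  | zero =>
    intro D hD _
    rw [Nat.factorial_zero, Nat.cast_one, one_pow]
    calc (1 : ℝ) = ∏ _d ∈ D, (1 : ℝ) := by rw [Finset.prod_const_one]
      _ ≤ ∏ d ∈ D, |(d : ℝ)| := Finset.prod_le_prod (fun d _ => zero_le_one) fun d hd => by
          have := Int.one_le_abs (hD d hd)
          exact_mod_cast this
  | succ h ih =>
    intro D hD hcard
    set E : Finset ℤ := D.filter fun d => |d| ≤ (h : ℤ) with hE
    have hEc : E.card ≤ 2 * h := by
      have h1 : E ⊆ (Finset.Icc (-(h : ℤ)) h).erase 0 := by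
        intro d hd
        obtain ⟨h1, h2⟩ := Finset.mem_filter.1 hd
        rw [abs_le] at h2
        exact Finset.mem_erase.2 ⟨hD d h1, Finset.mem_Icc.2 h2⟩
      have h2 := Finset.card_le_card h1
      rw [Finset.card_erase_of_mem (Finset.mem_Icc.2 ⟨by omega, by omega⟩), Int.card_Icc] at h2
      omega
    have hDE : 2 ≤ (D \ E).card := by
      have h1 := Finset.card_sdiff_add_card_eq_card (Finset.filter_subset (fun d => |d| ≤ (h : ℤ)) D)
      rw [← hE] at h1
      omega
    obtain ⟨S, hS, hSc⟩ := Finset.exists_subset_card_eq hDE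
    have hSD : S ⊆ D := hS.trans Finset.sdiff_subset
    have h1 := ih (D \ S) (fun d hd => hD d (Finset.mem_sdiff.1 hd).1) (by
      have := Finset.card_sdiff_add_card_eq_card hSD
      omega)
    have h2 : ((h : ℝ) + 1) ^ 2 ≤ ∏ d ∈ S, |(d : ℝ)| := by
      rw [← hSc, ← Finset.prod_const]
      refine Finset.prod_le_prod (fun d _ => by positivity) fun d hd => ?_
      have h3 := Finset.mem_sdiff.1 (hS hd)
      have h4 : ¬ |d| ≤ (h : ℤ) := fun h5 => h3.2 (Finset.mem_filter.2 ⟨h3.1, h5⟩)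
      have h5 : (h : ℤ) + 1 ≤ |d| := by omega
      exact_mod_cast h5
    rw [← Finset.prod_sdiff hSD, Nat.factorial_succ]
    push_cast
    rw [mul_pow, mul_comm]
    exact mul_le_mul h1 h2 (by positivity) (Finset.prod_nonneg fun d _ => abs_nonneg _)

variable {g : ℕ}

/-- the product of the distances from one of the integers to the others -/
theorem prod_erase_ge {b : Fin (g + 1) → ℤ} (hb : Function.Injective b) (p : Fin (g + 1)) :
    (((g / 2).factorial : ℝ)) ^ 2 ≤ ∏ j ∈ Finset.univ.erase p, |(b p : ℝ) - b j| := by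
  have hinj : Function.Injective fun j => b p - b j := fun i j h => hb (by
    have : b p - b i = b p - b j := h
    omega)
  have h1 := fact_sq_le (g / 2) ((Finset.univ.erase p).image fun j => b p - b j)
    (fun d hd => by
      obtain ⟨j, hj, rfl⟩ := Finset.mem_image.1 hd
      exact sub_ne_zero.2 (hb.ne (Finset.ne_of_mem_erase hj).symm))
    (by
      rw [Finset.card_image_of_injective _ hinj, Finset.card_erase_of_mem (Finset.mem_univ p),
        Finset.card_univ, Fintype.card_fin]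
      omega)
  rw [Finset.prod_image fun i _ j _ h => hinj h] at h1
  refine h1.trans (le_of_eq (Finset.prod_congr rfl fun j _ => ?_))
  push_cast
  rfl

/-- The product of the distances of a complex number to different integers, none of them nearer
than `ρ`. -/
theorem prod_dist {b : Fin (g + 1) → ℤ} (hb : Function.Injective b) {x : ℂ} {ρ : ℝ}
    (hx : ∀ i, ρ ≤ ‖x - (b i : ℂ)‖) :
    ρ * (((g / 2).factorial : ℝ) ^ 2 / 2 ^ g) ≤ ∏ i, ‖x - (b i : ℂ)‖ := by
  obtain ⟨p, -, hp⟩ := Finset.exists_min_image Finset.univ (fun i => ‖x - (b i : ℂ)‖)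
    ⟨0, Finset.mem_univ _⟩
  rw [← Finset.mul_prod_erase Finset.univ _ (Finset.mem_univ p)]
  refine mul_le_mul (hx p) ?_ (by positivity) (norm_nonneg _)
  have h1 : ((g / 2).factorial : ℝ) ^ 2 / 2 ^ g ≤
      ∏ j ∈ Finset.univ.erase p, |(b p : ℝ) - b j| / 2 := by
    rw [Finset.prod_div_distrib, Finset.prod_const, Finset.card_erase_of_mem (Finset.mem_univ p),
      Finset.card_univ, Fintype.card_fin, Nat.add_sub_cancel]
    exact div_le_div_of_nonneg_right (prod_erase_ge hb p) (by positivity)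
  refine h1.trans (Finset.prod_le_prod (fun j _ => by positivity) fun j _ => ?_)
  have h2 := hp j (Finset.mem_univ j)
  have h3 : |(b p : ℝ) - b j| ≤ ‖x - (b p : ℂ)‖ + ‖x - (b j : ℂ)‖ := by
    have h4 : |(b p : ℝ) - b j| = ‖(b p : ℂ) - b j‖ := by
      rw [← Int.cast_sub, ← Int.cast_sub, Complex.norm_intCast]
    rw [h4]
    have : (b p : ℂ) - b j = (x - b j) - (x - b p) := by ring
    rw [this, add_comm]
    exact norm_sub_le _ _
  linarith

/-- The radius of the discs. -/
noncomputable def rad (g : ℕ) (μ : ℝ) : ℝ := 2 ^ (g + 3) / (μ * ((g / 2).factorial : ℝ) ^ 2)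

theorem rad_pos (g : ℕ) {μ : ℝ} (hμ : 0 < μ) : 0 < rad g μ := by
  unfold rad
  have := Nat.factorial_pos (g / 2)
  positivity

theorem exists_sepd (hg : 6 ≤ g) {F : ℤ[X]} (hdeg : F.natDegree = g + 1)
    {b : Fin (g + 1) → ℤ} (hb : Function.Injective b) (hF : ∀ i, |F.eval (b i)| ≤ 2)
    (hr : rad g |(F.leadingCoeff : ℝ)| ≤ 1 / 2) :
    ∃ η, Sepd (F.map (Int.castRingHom ℂ)) (fun i => ((b i : ℤ) : ℂ))
      (rad g |(F.leadingCoeff : ℝ)|) η := by
  have hlam0 : F.leadingCoeff ≠ 0 := by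
    rw [Ne, leadingCoeff_eq_zero]
    rintro rfl
    rw [natDegree_zero] at hdeg
    omega
  have hlam : ((F.leadingCoeff : ℤ) : ℂ) ≠ 0 := Int.cast_ne_zero.2 hlam0
  have hlam1 : 0 < |(F.leadingCoeff : ℝ)| := abs_pos.2 (Int.cast_ne_zero.2 hlam0)
  have ht : ‖((F.eval (b 0) : ℤ) : ℂ)‖ ≤ 2 := by
    rw [Complex.norm_intCast]
    exact_mod_cast hF 0
  have hf := Nat.factorial_pos (g / 2)
  have hf' : (0 : ℝ) < ((g / 2).factorial : ℝ) := by exact_mod_cast hf
  refine sepd_fam (b := fun i => ((b i : ℤ) : ℂ)) hlam (Y94.UG.shape hg hdeg hb hF)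
    (B := rad g |(F.leadingCoeff : ℝ)| * (((g / 2).factorial : ℝ) ^ 2 / 2 ^ g)) (rad_pos g hlam1)
    (fun i j hij => ?_) ht (fun x hx => prod_dist hb hx) ?_
  · have h1 : (1 : ℤ) ≤ |b i - b j| := Int.one_le_abs (sub_ne_zero.2 (hb.ne hij))
    have h2 : ‖((b i : ℤ) : ℂ) - ((b j : ℤ) : ℂ)‖ = ((|b i - b j| : ℤ) : ℝ) := by
      rw [← Int.cast_sub, Complex.norm_intCast, Int.cast_abs]
    rw [h2]
    have h3 : (1 : ℝ) ≤ ((|b i - b j| : ℤ) : ℝ) := by exact_mod_cast h1
    linarith
  · have h1 : ‖((F.leadingCoeff : ℤ) : ℂ)‖ = |(F.leadingCoeff : ℝ)| := Complex.norm_intCast _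
    rw [h1]
    have h2 : |(F.leadingCoeff : ℝ)| * (rad g |(F.leadingCoeff : ℝ)| *
        (((g / 2).factorial : ℝ) ^ 2 / 2 ^ g)) = 8 := by
      unfold rad
      rw [pow_add]
      field_simp
      norm_num
    rw [h2]
    linarith

end Pool.Agent.X321.ST
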